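import Pool.Agent.Lib.Pfc0641.WRank
import Pool.Agent.Lib.Pfc0641.Final

/-!
# A balanced trisection that is neither minimal nor a stabilisation

`FG g`, `bdry g`, `IsTri`, `SIso`, `WIso`, `stab` are defined in `Pool/Agent/Lib/Pfc0641/Defs.lean`.
-/

namespace Pool.Agent.Results.MP_fc0641_gt.NotStabilization

open Pool.Agent.Pfc0641

/-- There are group trisections `M` of type `(4,2)` and `N` of type `(7,3)` such that the
stabilisation of `N` is isomorphic to the second stabilisation of `M`, while `N` is not isomorphic,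
even with the labels permuted or the orientation reversed, to the stabilisation of any balanced
group trisection of genus `4`. -/
theorem result : ∃ (M : Fin 3 → Subgroup (FG 4)) (N : Fin 3 → Subgroup (FG 7)),
    IsTri 4 2 M ∧ IsTri 7 3 N ∧ SIso (stab N) (stab (stab M)) ∧
      ∀ (k : ℕ) (N0 : Fin 3 → Subgroup (FG 4)), IsTri 4 k N0 → ¬ WIso N (stab N0) := by
  obtain ⟨N, M, hN, hM, hNM, hnot⟩ := W.final
  refine ⟨M, N, hM, hN, hNM, ?_⟩
  intro k N0 h0 h
  obtain rfl : k = 2 := type_of_stab hN h0 h
  exact hnot N0 h0 h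

end Pool.Agent.Results.MP_fc0641_gt.NotStabilization
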